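import Pool.Agent.Q262.Ht.Sq5Div
import Pool.Agent.Q262.CycFinal

/-!
For `n = 10374 = 2 · 3 · 7 · 13 · 19` neither of the two divisors `P_odd(n)`, `P_even(n)` of
`X^n - 1` has the largest height among the divisors of `X^n - 1`.
-/

set_option autoImplicit false

open Polynomial

namespace Pool.Agent.Results.MP_7b9a49_nt.NotExtremal

open Q262.Hgt Q262.Kron

theorem result :
    Squarefree 10374 ∧
      height (pOdd 10374) ≤ 8415683487216 ∧ height (pEven 10374) ≤ 8415683487216 ∧
      (X - 1) * pOdd 10374 ∣ X ^ 10374 - 1 ∧ 9401697462912 ≤ height ((X - 1) * pOdd 10374) ∧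
      (∀ n : ℕ, 0 < n → IsGreatest (divisorHeights n) (maxDivisorHeight n)) ∧
      ¬ ∀ n : ℕ, Squarefree n →
        maxDivisorHeight n = max (height (pOdd n)) (height (pEven n)) := by
  have h1 : height (pOdd 10374) ≤ 8415683487216 := by rw [pOdd_eq]; exact height_polO
  have h2 : height (pEven 10374) ≤ 8415683487216 := by rw [pEven_eq]; exact height_polE
  have h3 : (X - 1) * pOdd 10374 ∣ X ^ 10374 - 1 := by rw [pOdd_eq, xe_eq]; exact mul_dvd
  have h4 : 9401697462912 ≤ height ((X - 1) * pOdd 10374) := by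
    rw [pOdd_eq]; exact le_height_mul
  refine ⟨squarefree_10374, h1, h2, h3, h4, isGreatest_maxDivisorHeight, ?_⟩
  intro h
  have h5 := h 10374 squarefree_10374
  have h6 : height ((X - 1) * pOdd 10374) ≤ maxDivisorHeight 10374 :=
    (isGreatest_maxDivisorHeight 10374 (by norm_num)).2 ⟨_, h3, rfl⟩
  have h7 : max (height (pOdd 10374)) (height (pEven 10374)) ≤ 8415683487216 := max_le h1 h2
  rw [h5] at h6
  have h8 := h4.trans (h6.trans h7)
  norm_num at h8

end Pool.Agent.Results.MP_7b9a49_nt.NotExtremal
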